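import Pool.Agent.helper9.HQ.Spec

set_option autoImplicit false
set_option linter.unusedVariables false

namespace Pool.Agent.helper9.HQ

open Finset
open scoped Classical
open Pool.Agent.helper65.HC (V IsEig IsTop lam)

noncomputable section

lemma TW_sum1 {n : ℕ} (f : Fin (n + 1) → ℝ) (i : Fin n) :
    ∑ j, f j = f i.castSucc + f i.succ + ∑ j ∈ univ.erase i, f (i.succ.succAbove j) := by
  rw [Fin.sum_univ_succAbove f i.succ, ← Finset.add_sum_erase univ _ (Finset.mem_univ i)]
  have : i.succ.succAbove i = i.castSucc := Fin.succAbove_of_castSucc_lt _ _ Fin.castSucc_lt_succ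
  rw [this]
  ring

lemma TW_sum2 {n : ℕ} (f : Fin n → ℝ) (i : Fin n) :
    ∑ j, f j = f i + ∑ j ∈ univ.erase i, f j :=
  (Finset.add_sum_erase univ _ (Finset.mem_univ i)).symm

lemma TW_dbl1 {n : ℕ} (G : Fin (n + 1) → Fin (n + 1) → ℝ) (i : Fin n) :
    ∑ j, ∑ k, G j k = (G i.castSucc i.castSucc + G i.castSucc i.succ + G i.succ i.castSucc + G i.succ i.succ) +
      (∑ k ∈ univ.erase i, (G i.castSucc (i.succ.succAbove k) + G i.succ (i.succ.succAbove k)) +
      ∑ j ∈ univ.erase i, (G (i.succ.succAbove j) i.castSucc + G (i.succ.succAbove j) i.succ)) +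
      ∑ j ∈ univ.erase i, ∑ k ∈ univ.erase i, G (i.succ.succAbove j) (i.succ.succAbove k) := by
  rw [TW_sum1 (fun j => ∑ k, G j k) i]
  simp only [TW_sum1 _ i, Finset.sum_add_distrib]
  ring

lemma TW_dbl2 {n : ℕ} (G : Fin n → Fin n → ℝ) (i : Fin n) :
    ∑ j, ∑ k, G j k = G i i + (∑ k ∈ univ.erase i, G i k + ∑ j ∈ univ.erase i, G j i) +
      ∑ j ∈ univ.erase i, ∑ k ∈ univ.erase i, G j k := by
  rw [TW_sum2 (fun j => ∑ k, G j k) i]
  simp only [TW_sum2 _ i, Finset.sum_add_distrib]
  ring

/-- the scalar facts -/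
lemma TW_sc (xp xq ap aq : ℝ) (hp : 0 ≤ xp) (hq : 0 ≤ xq) (h1 : 0 ≤ ap) (h2 : 0 ≤ aq) :
    0 ≤ √((xp * ap ^ 2 + xq * aq ^ 2) / (xp + xq)) ∧
    (xp + xq) * √((xp * ap ^ 2 + xq * aq ^ 2) / (xp + xq)) ^ 2 = xp * ap ^ 2 + xq * aq ^ 2 ∧
    xp * ap + xq * aq ≤ (xp + xq) * √((xp * ap ^ 2 + xq * aq ^ 2) / (xp + xq)) := by
  have h0 : (xp + xq) * √((xp * ap ^ 2 + xq * aq ^ 2) / (xp + xq)) ^ 2 = xp * ap ^ 2 + xq * aq ^ 2 := by
    rw [Real.sq_sqrt (by positivity)]
    rcases eq_or_lt_of_le (add_nonneg hp hq) with h | h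
    · have e1 : xp = 0 := by linarith
      have e2 : xq = 0 := by linarith
      subst e1; subst e2; simp
    · field_simp
  refine ⟨Real.sqrt_nonneg _, h0, ?_⟩
  have h3 : (xp * ap + xq * aq) ^ 2 ≤ ((xp + xq) * √((xp * ap ^ 2 + xq * aq ^ 2) / (xp + xq))) ^ 2 := by
    have : ((xp + xq) * √((xp * ap ^ 2 + xq * aq ^ 2) / (xp + xq))) ^ 2 =
        (xp + xq) * ((xp + xq) * √((xp * ap ^ 2 + xq * aq ^ 2) / (xp + xq)) ^ 2) := by ring
    rw [this, h0]
    nlinarith [mul_nonneg (mul_nonneg hp hq) (sq_nonneg (ap - aq))]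
  exact le_of_sq_le_sq h3 (by positivity)

theorem TW : TW_stmt := by
  intro n W x a i hW hx ha htw
  obtain ⟨hA0, hA2, hA1⟩ := TW_sc (x i.castSucc) (x i.succ) (a i.castSucc) (a i.succ) (hx _) (hx _) (ha _) (ha _)
  set A := √((x i.castSucc * a i.castSucc ^ 2 + x i.succ * a i.succ ^ 2) / (x i.castSucc + x i.succ)) with hA
  have htw' : ∀ j, W j i.castSucc ↔ W j i.succ := fun j =>
    ⟨fun h => hW.symm _ _ ((htw j).1 (hW.symm _ _ h)), fun h => hW.symm _ _ ((htw j).2 (hW.symm _ _ h))⟩
  have hself : i.succ.succAbove i = i.castSucc := Fin.succAbove_of_castSucc_lt _ _ Fin.castSucc_lt_succ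
  have hs1 : ∀ k, W i.castSucc (i.succ.succAbove k) → W (i.succ.succAbove i) (i.succ.succAbove k) := by
    rw [hself]; exact fun k h => h
  have hs1' : ∀ k, W (i.succ.succAbove i) (i.succ.succAbove k) → W i.castSucc (i.succ.succAbove k) := by
    rw [hself]; exact fun k h => h
  have hs2 : ∀ k, W (i.succ.succAbove k) i.castSucc → W (i.succ.succAbove k) (i.succ.succAbove i) := by
    rw [hself]; exact fun k h => h
  have hs2' : ∀ k, W (i.succ.succAbove k) (i.succ.succAbove i) → W (i.succ.succAbove k) i.castSucc := by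
    rw [hself]; exact fun k h => h
  have hs3 : W i.castSucc i.castSucc → W (i.succ.succAbove i) (i.succ.succAbove i) := by
    rw [hself]; exact fun h => h
  have hs3' : W (i.succ.succAbove i) (i.succ.succAbove i) → W i.castSucc i.castSucc := by
    rw [hself]; exact fun h => h
  have hxi := hx i.castSucc
  have hxs := hx i.succ
  have hai := ha i.castSucc
  have has := ha i.succ
  have hAA : (x i.castSucc + x i.succ) ^ 2 * A ^ 2 =
      (x i.castSucc + x i.succ) * (x i.castSucc * a i.castSucc ^ 2 + x i.succ * a i.succ ^ 2) := by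
    rw [← hA2]; ring
  refine ⟨fun j k => W (i.succ.succAbove j) (i.succ.succAbove k),
    fun j => if j = i then x i.castSucc + x i.succ else x (i.succ.succAbove j),
    fun j => if j = i then A else a (i.succ.succAbove j), ⟨?_, ?_⟩, ?_, ?_, ?_, ?_, ?_, ?_⟩
  · intro j k h
    exact hW.symm _ _ h
  · intro j k j' k' h h1 h2
    exact hW.mono _ _ _ _ h ((Fin.strictMono_succAbove _).monotone h1) ((Fin.strictMono_succAbove _).monotone h2)
  · intro j
    dsimp only
    split_ifs
    · exact add_nonneg (hx _) (hx _)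
    · exact hx _
  · intro j
    dsimp only
    split_ifs
    · exact hA0
    · exact ha _
  · rw [TW_sum2 _ i, TW_sum1 x i, if_pos rfl]
    congr 1
    exact Finset.sum_congr rfl fun j hj => if_neg (Finset.ne_of_mem_erase hj)
  · unfold ar
    rw [TW_dbl2 _ i, TW_dbl1 (fun j k => if W j k then x j * x k else 0) i]
    dsimp only
    have e1 : (∑ k ∈ univ.erase i, if W (i.succ.succAbove i) (i.succ.succAbove k) then
        (if i = i then x i.castSucc + x i.succ else x (i.succ.succAbove i)) *
        (if k = i then x i.castSucc + x i.succ else x (i.succ.succAbove k)) else 0) =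
        ∑ k ∈ univ.erase i, ((if W i.castSucc (i.succ.succAbove k) then x i.castSucc * x (i.succ.succAbove k) else 0) +
          (if W i.succ (i.succ.succAbove k) then x i.succ * x (i.succ.succAbove k) else 0)) := by
      refine Finset.sum_congr rfl fun k hk => ?_
      rw [if_pos (rfl : i = i), if_neg (Finset.ne_of_mem_erase hk)]
      by_cases h : W i.castSucc (i.succ.succAbove k)
      · rw [if_pos h, if_pos (hs1 _ h), if_pos ((htw _).1 h)]; ring
      · rw [if_neg h, if_neg (fun h' => h (hs1' _ h')), if_neg (fun h' => h ((htw _).2 h'))]; ring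
    have e2 : (∑ j ∈ univ.erase i, if W (i.succ.succAbove j) (i.succ.succAbove i) then
        (if j = i then x i.castSucc + x i.succ else x (i.succ.succAbove j)) *
        (if i = i then x i.castSucc + x i.succ else x (i.succ.succAbove i)) else 0) =
        ∑ j ∈ univ.erase i, ((if W (i.succ.succAbove j) i.castSucc then x (i.succ.succAbove j) * x i.castSucc else 0) +
          (if W (i.succ.succAbove j) i.succ then x (i.succ.succAbove j) * x i.succ else 0)) := by
      refine Finset.sum_congr rfl fun k hk => ?_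
      rw [if_pos (rfl : i = i), if_neg (Finset.ne_of_mem_erase hk)]
      by_cases h : W (i.succ.succAbove k) i.castSucc
      · rw [if_pos h, if_pos (hs2 _ h), if_pos ((htw' _).1 h)]; ring
      · rw [if_neg h, if_neg (fun h' => h (hs2' _ h')), if_neg (fun h' => h ((htw' _).2 h'))]; ring
    have e3 : (∑ j ∈ univ.erase i, ∑ k ∈ univ.erase i, if W (i.succ.succAbove j) (i.succ.succAbove k) then
        (if j = i then x i.castSucc + x i.succ else x (i.succ.succAbove j)) *
        (if k = i then x i.castSucc + x i.succ else x (i.succ.succAbove k)) else 0) =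
        ∑ j ∈ univ.erase i, ∑ k ∈ univ.erase i, if W (i.succ.succAbove j) (i.succ.succAbove k) then
          x (i.succ.succAbove j) * x (i.succ.succAbove k) else 0 := by
      refine Finset.sum_congr rfl fun j hj => Finset.sum_congr rfl fun k hk => ?_
      rw [if_neg (Finset.ne_of_mem_erase hj), if_neg (Finset.ne_of_mem_erase hk)]
    rw [e1, e2, e3]
    congr 2
    rw [if_pos (rfl : i = i)]
    by_cases h : W i.castSucc i.castSucc
    · rw [if_pos h, if_pos (hs3 h), if_pos ((htw' _).1 h), if_pos ((htw _).1 h), if_pos ((htw _).1 ((htw' _).1 h))]; ring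
    · have h1 : ¬ W i.castSucc i.succ := fun h' => h ((htw' _).2 h')
      have h2 : ¬ W i.succ i.castSucc := fun h' => h ((htw _).2 h')
      have h3 : ¬ W i.succ i.succ := fun h' => h2 ((htw' _).2 h')
      rw [if_neg h, if_neg (fun h' => h (hs3' h')), if_neg h1, if_neg h2, if_neg h3]; ring
  · unfold NN
    rw [TW_sum2 _ i, TW_sum1 (fun j => x j * a j ^ 2) i]
    dsimp only
    rw [if_pos rfl, if_pos rfl, hA2]
    congr 1
    refine Finset.sum_congr rfl fun j hj => ?_
    rw [if_neg (Finset.ne_of_mem_erase hj), if_neg (Finset.ne_of_mem_erase hj)]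
  · unfold Phi
    refine add_le_add ?_ (mul_le_mul_of_nonneg_left ?_ (by norm_num))
    · rw [TW_sum2 _ i, TW_sum1 (fun j => x j * a j) i]
      dsimp only
      rw [if_pos rfl, if_pos rfl]
      have e : (∑ j ∈ univ.erase i, (if j = i then x i.castSucc + x i.succ else x (i.succ.succAbove j)) *
          (if j = i then A else a (i.succ.succAbove j))) =
          ∑ j ∈ univ.erase i, x (i.succ.succAbove j) * a (i.succ.succAbove j) := by
        refine Finset.sum_congr rfl fun j hj => ?_
        rw [if_neg (Finset.ne_of_mem_erase hj), if_neg (Finset.ne_of_mem_erase hj)]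
      rw [e]
      have hs : 0 ≤ ∑ j ∈ univ.erase i, x (i.succ.succAbove j) * a (i.succ.succAbove j) :=
        Finset.sum_nonneg fun j _ => mul_nonneg (hx _) (ha _)
      refine pow_le_pow_left₀ (by positivity) ?_ 2
      linarith
    · rw [TW_dbl2 _ i, TW_dbl1 (fun j k => if W j k then x j * x k * (a j + a k) ^ 2 else 0) i]
      dsimp only
      refine add_le_add (add_le_add ?_ (add_le_add ?_ ?_)) (le_of_eq ?_)
      · rw [if_pos (rfl : i = i), if_pos (rfl : i = i)]
        by_cases h : W i.castSucc i.castSucc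
        · rw [if_pos h, if_pos (hs3 h), if_pos ((htw' _).1 h), if_pos ((htw _).1 h), if_pos ((htw _).1 ((htw' _).1 h))]
          have hsq : (x i.castSucc * a i.castSucc + x i.succ * a i.succ) ^ 2 ≤
              (x i.castSucc + x i.succ) * (x i.castSucc * a i.castSucc ^ 2 + x i.succ * a i.succ ^ 2) := by
            nlinarith [mul_nonneg (mul_nonneg hxi hxs) (sq_nonneg (a i.castSucc - a i.succ))]
          nlinarith [hAA, hsq]
        · have h1 : ¬ W i.castSucc i.succ := fun h' => h ((htw' _).2 h')
          have h2 : ¬ W i.succ i.castSucc := fun h' => h ((htw _).2 h')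
          have h3 : ¬ W i.succ i.succ := fun h' => h2 ((htw' _).2 h')
          rw [if_neg h, if_neg (fun h' => h (hs3' h')), if_neg h1, if_neg h2, if_neg h3]; simp
      · refine Finset.sum_le_sum fun k hk => ?_
        rw [if_pos (rfl : i = i), if_pos (rfl : i = i), if_neg (Finset.ne_of_mem_erase hk),
          if_neg (Finset.ne_of_mem_erase hk)]
        by_cases h : W i.castSucc (i.succ.succAbove k)
        · rw [if_pos h, if_pos (hs1 _ h), if_pos ((htw _).1 h)]
          have h1 := mul_nonneg (hx (i.succ.succAbove k)) (ha (i.succ.succAbove k))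
          have h2 := mul_le_mul_of_nonneg_left hA1 h1
          have h3 : x (i.succ.succAbove k) * ((x i.castSucc + x i.succ) * A ^ 2) = x (i.succ.succAbove k) *
            (x i.castSucc * a i.castSucc ^ 2 + x i.succ * a i.succ ^ 2) := by rw [hA2]
          nlinarith [h2, h3]
        · rw [if_neg h, if_neg (fun h' => h (hs1' _ h')), if_neg (fun h' => h ((htw _).2 h'))]; simp
      · refine Finset.sum_le_sum fun k hk => ?_
        rw [if_pos (rfl : i = i), if_pos (rfl : i = i), if_neg (Finset.ne_of_mem_erase hk),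
          if_neg (Finset.ne_of_mem_erase hk)]
        by_cases h : W (i.succ.succAbove k) i.castSucc
        · rw [if_pos h, if_pos (hs2 _ h), if_pos ((htw' _).1 h)]
          have h1 := mul_nonneg (hx (i.succ.succAbove k)) (ha (i.succ.succAbove k))
          have h2 := mul_le_mul_of_nonneg_left hA1 h1
          have h3 : x (i.succ.succAbove k) * ((x i.castSucc + x i.succ) * A ^ 2) = x (i.succ.succAbove k) *
            (x i.castSucc * a i.castSucc ^ 2 + x i.succ * a i.succ ^ 2) := by rw [hA2]
          nlinarith [h2, h3]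
        · rw [if_neg h, if_neg (fun h' => h (hs2' _ h')), if_neg (fun h' => h ((htw' _).2 h'))]; simp
      · refine Finset.sum_congr rfl fun j hj => Finset.sum_congr rfl fun k hk => ?_
        rw [if_neg (Finset.ne_of_mem_erase hj), if_neg (Finset.ne_of_mem_erase hk),
          if_neg (Finset.ne_of_mem_erase hj), if_neg (Finset.ne_of_mem_erase hk)]

end

end Pool.Agent.helper9.HQ
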